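import Pool.Agent.Helper98.DISC.Defs

/-!
# Project DISC (MP_105b7b_pr), module B: contour integrals and the functions F_m

Every `def S_XXX : Prop` is a packet; complete proofs in the docstrings; earlier goals may be used as
hypotheses (also those of GoalsA).
-/

open MeasureTheory Set Filter Topology

noncomputable section

namespace Pool.Agent.Helper98.DISC

/-- `f` is holomorphic for `|z| > r` and `O(1/|z|)` -/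
def Hol (r : ℝ) (f : ℂ → ℂ) : Prop := 0 ≤ r ∧ (∀ z : ℂ, r < ‖z‖ → DifferentiableAt ℂ f z) ∧
  ∃ C r' : ℝ, ∀ z : ℂ, r' < ‖z‖ → ‖f z‖ * ‖z‖ ≤ C

/-- RAD.  The radius does not matter (`Complex.circleIntegral_eq_of_differentiable_on_annulus_off_countable`
or `circleIntegral_sub_...`), derivative in `φ`. -/
def S_RAD : Prop := ∀ (r ρ ρ' φ : ℝ) (f : ℂ → ℂ), Hol r f → r < ρ → r < ρ' →
  Cc ρ f φ = Cc ρ' f φ ∧
    HasDerivAt (fun φ => Cc ρ f φ) (Cc ρ (fun z => 2 * Complex.I * z * f z) φ) φ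

/-- EXT.  Cauchy's formula for the exterior domain.
(1) `|η| > ρ`: `z ↦ (f z - f η)/(z - η)` (`dslope`) is holomorphic for `|z| > r`, so its integrals over `|z| = ρ` and
`|z| = R`, `R > |η|`, agree; on `|z| = R` it is `∮ f/(z-η) - f(η)·2πi`, and `∮ f/(z-η) → 0` as `R → ∞`; on `|z| = ρ` the integral of
`1/(z-η)` is `0`.
(2) `|η| < ρ`: `f(z)/(z-η)` is holomorphic for `|z| > max(r,|η|)` and `O(1/|z|²)`, so the integral is the limit of the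
integrals over `|z| = R`, which is `0`. -/
def S_EXT : Prop := ∀ (r ρ : ℝ) (f : ℂ → ℂ), Hol r f → r < ρ →
  (∀ η : ℂ, ρ < ‖η‖ → (∮ z in C(0, ρ), f z / (z - η)) = -(2 * Real.pi * Complex.I) * f η) ∧
  ∀ η : ℂ, ‖η‖ < ρ → (∮ z in C(0, ρ), f z / (z - η)) = 0

/-- CNV (uses S_RAD, S_EXT).  The convolution theorem.  Take radii `r < ρ < ρ'` and write `Cc ρ f`, `Cc ρ' g` as integrals over
`ξ`, `η`.  `∫_0^φ e^(2iξ(φ-τ)) e^(2iητ) dτ = (e^(2iηφ) - e^(2iξφ))/(2i(η-ξ))`.  So (Fubini, everything is continuous)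
`2i ∫_0^φ Cc f (φ-τ) Cc g τ dτ = (2πi)⁻² ∮_η ∮_ξ f(ξ) g(η) (e^(2iηφ) - e^(2iξφ))/(η-ξ) dξ dη`.  The first part is
`(2πi)⁻² ∮_η g(η) e^(2iηφ) ∮_ξ f(ξ)/(η-ξ) = (2πi)⁻¹ ∮_η g(η) f(η) e^(2iηφ)` by S_EXT (1), the second is
`-(2πi)⁻² ∮_ξ f(ξ) e^(2iξφ) ∮_η g(η)/(η-ξ) = 0` by S_EXT (2). -/
def S_CNV : Prop := ∀ (r ρ φ : ℝ) (f g : ℂ → ℂ), Hol r f → Hol r g → r < ρ →
  Cc ρ (fun z => f z * g z) φ = 2 * Complex.I * ∫ τ in (0 : ℝ)..φ, Cc ρ f (φ - τ) * Cc ρ g τ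

/-- SHF.  Translations.  `c ↦ ∮_(|z|=ρ) f(z+c) e^(2i(z+c)φ) dz` has the derivative `∮ (d/dz)(…) dz = 0` along the segment from `0`
to `c` (integral of a derivative over a circle), as long as `ρ > r + |c|`. -/
def S_SHF : Prop := ∀ (r ρ φ : ℝ) (c : ℂ) (f : ℂ → ℂ), Hol r f → r + ‖c‖ < ρ →
  Cc ρ (fun z => f (z + c)) φ = Complex.exp (-(2 * Complex.I * c * φ)) * Cc ρ f φ

/-- ODE (uses S_RAD, S_CNV, S_SHF, and S_ZZ, S_DIF, S_DCY, S_RR of GoalsA).  Let `k = m + 1 ≥ 2`, `Y_j(φ) = Cc ρ (yk j) φ` (large `ρ`; any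
`ρ > j - 1` gives the same, S_RAD).  The coefficient of `t^k` in S_ZZ is, for `z ∉ ℤ`,
`(k+z) y_k(z+1) - (z+1-k) y_k(z) = -Σ_(i+j=k) β_i(z) β_j(z)`, `β_j(z) = y_j(z+1) - y_j(z)` (`β_0 = 0`).
Put `z = ζ - 1/2`, multiply by `(2πi)⁻¹ e^(2iζφ)` and integrate over a large circle (no integers `z` on it, e.g. radius `ρ ∈ ℕ`, `ρ ≥ k + 2`).
S_SHF, S_RAD: with `k + z = (k-1) + (z+1)`, `z + 1 - k = z - (k-1)` the left side becomes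
`e^(-iφ)((k-1)Y_k + Y_k'/(2i)) - e^(iφ)(Y_k'/(2i) - (k-1)Y_k) = 2(k-1) cos φ Y_k - sin φ Y_k'`, the right side by S_CNV
`-2i Σ_(i+j=k) B_i * B_j` with `B_j = (e^(-iφ) - e^(iφ)) Y_j = -2i sin φ Y_j`.  So
`2(k-1) cos φ Y_k - sin φ Y_k' = 8i Σ (sin Y_i) * (sin Y_j)`; with `F_m = -(i/2)^(m+1) (2i) Y_(m+1)` this is the claim
(`c_m = -(i/2)^(m+1) 2i` satisfies `c_m/(c_p c_q) = -1/(2i)` for `p + q = m - 1`).  `F_0 = 1` because `y_1 = 1/z`. -/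
def S_ODE : Prop := (∀ φ : ℝ, Fm 0 φ = 1) ∧ (∀ m, Differentiable ℝ (Fm m)) ∧ ∀ (m : ℕ) (φ : ℝ), 1 ≤ m →
  Real.sin φ * deriv (Fm m) φ - 2 * m * Real.cos φ * Fm m φ =
    4 * ∑ x ∈ Finset.HasAntidiagonal.antidiagonal (m - 1), ∫ τ in (0 : ℝ)..φ,
      (Real.sin (φ - τ) * Fm x.1 (φ - τ)) * (Real.sin τ * Fm x.2 τ)

/-- VAN (uses S_DCY, S_DIF).  `F_m` vanishes to order `2m+1` at `0`: for `j ≤ 2m` the integral of `z^j y_(m+1)(z)` over `|z| = m+1` is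
the same as over `|z| = R` and tends to `0` (`y_(m+1) = O(|z|^(-2m-2))`); so
`F_m(φ) = c ∮ y_(m+1)(z) (e^(2izφ) - Σ_(j ≤ 2m) (2izφ)^j/j!) dz` and `Complex.norm_exp_sub_sum_le_norm_mul_exp`. -/
def S_VAN : Prop := ∀ m : ℕ, 1 ≤ m → ∃ C : ℝ, ∀ φ ∈ Icc (0 : ℝ) 1, ‖Fm m φ‖ ≤ C * φ ^ (2 * m + 1)

/-- FN (uses S_ODE, S_VAN).  On `(0,π)`: `F_m` is real and `≥ 0`, and `f_m = F_m/(2 sin)^(2m)` satisfies
`f_m' = Σ_(p+q=m-1) (h_p * h_q)/sin^(2m+1)`, `f_m(0+) = 0`.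
By strong induction on `m`: `h_p = 4^(-p) sin F_p`; S_ODE divided by `4^m sin^(2m+1)` is the formula for `(F_m/(2 sin)^(2m))'` (complex
valued), S_VAN gives `F_m/(2 sin)^(2m) → 0` at `0+`, so `F_m/(2 sin)^(2m) (φ) = ∫_0^φ (real, ≥ 0)`; integrability:
`intervalIntegral.integrableOn_deriv_of_nonneg`-type lemma for the real part, or the bound `h_p * h_q = O(θ^(2m+1))`.
Last claim: S_ODE at `φ = π`. -/
def S_FN : Prop := (∀ (m : ℕ), ∀ φ ∈ Ioo (0 : ℝ) Real.pi, (Fm m φ).im = 0 ∧ 0 ≤ (Fm m φ).re) ∧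
  (∀ m, (Fm m Real.pi).im = 0) ∧ (∀ m, ContinuousOn (fm m) (Ioo 0 Real.pi)) ∧
  (∀ (m : ℕ), 1 ≤ m → ∀ φ ∈ Ioo (0 : ℝ) Real.pi,
    IntervalIntegrable (fun θ => (∑ x ∈ Finset.HasAntidiagonal.antidiagonal (m - 1),
      ∫ τ in (0 : ℝ)..θ, hm x.1 (θ - τ) * hm x.2 τ) / Real.sin θ ^ (2 * m + 1)) volume 0 φ ∧
    fm m φ = ∫ θ in (0 : ℝ)..φ, (∑ x ∈ Finset.HasAntidiagonal.antidiagonal (m - 1),
      ∫ τ in (0 : ℝ)..θ, hm x.1 (θ - τ) * hm x.2 τ) / Real.sin θ ^ (2 * m + 1)) ∧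
  ∀ m : ℕ, 1 ≤ m → (Fm m Real.pi).re = 4 ^ m / (2 * m) * ∑ x ∈ Finset.HasAntidiagonal.antidiagonal (m - 1),
      ∫ τ in (0 : ℝ)..Real.pi, hm x.1 (Real.pi - τ) * hm x.2 τ

/-- ANA (uses S_FN).  The double integral.  The integrand is `h_p(α) h_q(ψ)/sin^(2n+1)(α+ψ)`, `p + q = n - 1`; substitute
`α = θ - τ`, `ψ = τ` (for fixed `ψ` translate `α`, Tonelli): `∫_0^φ ∫_0^θ h_p(θ-τ) h_q(τ) dτ dθ/sin^(2n+1) θ`, and use S_FN (all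
functions are `≥ 0`, `ofReal_integral_eq_lintegral_ofReal`). -/
def S_ANA : Prop := ∀ (n : ℕ), 1 ≤ n → ∀ φ ∈ Ioo (0 : ℝ) Real.pi,
  ∑ x ∈ Finset.HasAntidiagonal.antidiagonal (n - 1), ∫⁻ α in Ioo (0 : ℝ) φ, ∫⁻ ψ in Ioo (0 : ℝ) (φ - α),
    ENNReal.ofReal ((Real.sin α / Real.sin (α + ψ)) ^ (2 * x.1) * fm x.1 α) *
    ENNReal.ofReal ((Real.sin ψ / Real.sin (α + ψ)) ^ (2 * x.2) * fm x.2 ψ) *
    ENNReal.ofReal (Real.sin α * Real.sin ψ / Real.sin (α + ψ) ^ 3) = ENNReal.ofReal (fm n φ)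

/-- ANU (uses S_FN).  `∫_0^(2 sin α) d^(2(n-1)+1) dd = (2 sin α)^(2n)/(2n)`, `sin^(2n) α = sin^(2p+1) α sin^(2q+1) (π-α)`, last part
of S_FN. -/
def S_ANU : Prop := ∀ (n : ℕ), 1 ≤ n →
  ∑ x ∈ Finset.HasAntidiagonal.antidiagonal (n - 1), ∫⁻ α in Ioo (0 : ℝ) Real.pi, ∫⁻ d in Ioo (0 : ℝ) (2 * Real.sin α),
    ENNReal.ofReal (d ^ (2 * x.1) * fm x.1 α) * ENNReal.ofReal (d ^ (2 * x.2) * fm x.2 (Real.pi - α)) *
    ENNReal.ofReal d = ENNReal.ofReal (Fm n Real.pi).re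

end Pool.Agent.Helper98.DISC
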