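import Pool.Agent.Helper98.DISC.GoalsD

open MeasureTheory Set Filter Topology
open scoped ENNReal

noncomputable section

namespace Pool.Agent.Helper98.DISC

theorem csv (hT : S_TSV) (hU : S_UN3) (hS : S_SP3) (hSim : S_SIM) (hB : S_BI) : S_CSV := by
  intro m
  rw [hU m, hS m]
  have h1 : ∫⁻ w in Metric.ball (0 : ℂ) 1, volume {u : Fin m → ℂ | Pfr w u ∧ ∀ i, ‖u i‖ < ‖w‖} =
      ∫⁻ w in Metric.ball (0 : ℂ) 1, ENNReal.ofReal (‖w‖ ^ (2 * m)) * volume (TS (Fin m)) := by
    apply lintegral_congr_ae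
    have h0 : ∀ᵐ w : ℂ ∂(volume.restrict (Metric.ball (0 : ℂ) 1)), w ≠ 0 := by
      apply ae_restrict_of_ae
      have : (volume : Measure ℂ) {(0 : ℂ)} = 0 := measure_singleton 0
      rw [ae_iff]
      simpa using this
    filter_upwards [h0] with w hw
    rw [hSim.2 (Fin m) w hw, Fintype.card_fin]
  rw [h1, lintegral_mul_const _ (by fun_prop), hB m, hT (Fin m), Fintype.card_fin]
  have hm : (0 : ℝ) < (m : ℝ) + 1 := by positivity
  rw [← mul_assoc, ENNReal.ofReal_mul Real.pi_pos.le]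
  congr 1
  have : ((m : ℝ≥0∞) + 1) = ENNReal.ofReal ((m : ℝ) + 1) := by
    rw [ENNReal.ofReal_add (by positivity) (by positivity)]
    simp
  rw [this, ← ENNReal.ofReal_mul hm.le]
  congr 1
  field_simp

end Pool.Agent.Helper98.DISC
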