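import Mathlib

/-!
# Project DISC (MP_105b7b_pr, Q2): the probability that the polygon through n random points of the
disc is convex.  Definitions (of the final statement and of the proof).  See PAPER.md.
-/

open MeasureTheory Set Filter Topology

noncomputable section

namespace Pool.Agent.Helper98.DISC

/-! ## The final statement: definitions -/

/-- The edge of the closed polygon `x 0, …, x (n-1)` which starts at `x i` (indices modulo `n`). -/
def edge {n : ℕ} [NeZero n] (x : Fin n → ℂ) (i : Fin n) : Set ℂ := segment ℝ (x i) (x (i + 1))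

/-- The polygon is simple: any two edges are disjoint, except that adjacent edges share exactly
their common end point. -/
def IsSimple {n : ℕ} [NeZero n] (x : Fin n → ℂ) : Prop :=
  (∀ i, edge x i ∩ edge x (i + 1) = {x (i + 1)}) ∧
    ∀ i j, i ≠ j → j ≠ i + 1 → i ≠ j + 1 → Disjoint (edge x i) (edge x j)

/-- The polygon is convex: it is simple, and it is the boundary of a (nonempty, open) bounded convex
region `K` (which is then the region enclosed by the polygon). -/
def IsConvexPolygon {n : ℕ} [NeZero n] (x : Fin n → ℂ) : Prop :=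
  IsSimple x ∧ ∃ K : Set ℂ, IsOpen K ∧ K.Nonempty ∧ Bornology.IsBounded K ∧ Convex ℝ K ∧
    frontier K = ⋃ i, edge x i

/-- `q_n`: the probability that the polygon through `n` independent uniformly distributed points of
the closed unit disc is convex. -/
def qn (n : ℕ) [NeZero n] : ℝ :=
  ((Measure.pi fun _ : Fin n => ProbabilityTheory.cond (volume : Measure ℂ)
    (Metric.closedBall 0 1)) {x | IsConvexPolygon x}).toReal

/-- The partitions `λ_0 ≥ λ_1 ≥ … ≥ λ_(k-1) ≥ 0` of `k`. -/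
def prt (k : ℕ) : Finset (Fin k → Fin (k + 1)) :=
  Finset.univ.filter fun lam => Antitone lam ∧ ∑ i, (lam i : ℕ) = k

/-- `l_i = λ_i + k - 1 - i` -/
def ell {k : ℕ} (lam : Fin k → Fin (k + 1)) (i : Fin k) : ℕ := (lam i : ℕ) + (k - 1 - i)

/-- `d_λ = ∏_(i<j) (l_i - l_j) / ∏_i l_i!` (the number of standard Young tableaux of shape `λ`,
divided by `|λ|!`; also the inverse of the product of the hook lengths). -/
def dl {k : ℕ} (lam : Fin k → Fin (k + 1)) : ℂ :=
  (∏ i, ∏ j ∈ Finset.Ioi i, ((ell lam i : ℂ) - ell lam j)) / ∏ i, ((ell lam i).factorial : ℂ)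

/-- `s_k(z) = ∑_λ d_λ² ∏_(box ∈ λ) 1/(z + content)`, the sum over the partitions of `k`. -/
def sk (k : ℕ) (z : ℂ) : ℂ :=
  ∑ lam ∈ prt k, dl lam ^ 2 * ∏ i, ∏ j ∈ Finset.range (lam i), (z + j - i)⁻¹

/-- `S(z) = ∑_k s_k(z) t^k`, a power series in `t`. -/
def Sz (z : ℂ) : PowerSeries ℂ := PowerSeries.mk fun k => sk k z

/-- THE FINAL STATEMENT. -/
def S_FINAL : Prop := ∀ (n : ℕ) [NeZero n], 3 ≤ n →
  (qn n : ℂ) = -2 * (Complex.I / (2 * Real.pi)) ^ n *
    ∮ z in C(0, n), PowerSeries.coeff (n - 1) (PowerSeries.derivative ℂ (Sz z) * (Sz z)⁻¹) *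
      Complex.exp (2 * Real.pi * Complex.I * z)

/-! ## Formal part -/

/-- `θ = t d/dt` -/
def th (f : PowerSeries ℂ) : PowerSeries ℂ := PowerSeries.X * PowerSeries.derivative ℂ f

/-- `y(z) = θ S(z) / S(z)` -/
def yz (z : ℂ) : PowerSeries ℂ := th (Sz z) * (Sz z)⁻¹

/-- `y_k(z)` -/
def yk (k : ℕ) (z : ℂ) : ℂ := PowerSeries.coeff k (yz z)

/-! ## The functions of `φ` -/

/-- `(2πi)⁻¹ ∮_(|z| = ρ) f(z) e^(2izφ) dz` -/
def Cc (ρ : ℝ) (f : ℂ → ℂ) (φ : ℝ) : ℂ :=
  (2 * Real.pi * Complex.I)⁻¹ * ∮ z in C(0, ρ), f z * Complex.exp (2 * Complex.I * z * φ)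

/-- `F_m(φ) = -(i/2)^(m+1) (2i) (2πi)⁻¹ ∮_(|z| = m+1) y_(m+1)(z) e^(2izφ) dz` -/
def Fm (m : ℕ) (φ : ℝ) : ℂ :=
  -(Complex.I / 2) ^ (m + 1) * (2 * Complex.I) * Cc (m + 1) (yk (m + 1)) φ

/-- `f_m(φ) = F_m(φ)/(2 sin φ)^(2m)` (real part) -/
def fm (m : ℕ) (φ : ℝ) : ℝ := (Fm m φ).re / (2 * Real.sin φ) ^ (2 * m)

/-- `h_m(φ) = sin^(2m+1) φ f_m(φ)` -/
def hm (m : ℕ) (φ : ℝ) : ℝ := Real.sin φ ^ (2 * m + 1) * fm m φ

/-! ## Plane geometry -/

/-- twice the signed area of the triangle `a b c` -/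
def cr (a b c : ℂ) : ℝ := (b.re - a.re) * (c.im - a.im) - (b.im - a.im) * (c.re - a.re)

/-- `a, z_i (i ∈ ι), b` is a strictly convex counterclockwise chain (all triples are positive) -/
structure Chain {ι : Type*} [LinearOrder ι] (a b : ℂ) (z : ι → ℂ) : Prop where
  ab : ∀ i, 0 < cr a (z i) b
  a2 : ∀ i j, i < j → 0 < cr a (z i) (z j)
  b2 : ∀ i j, i < j → 0 < cr (z i) (z j) b
  p3 : ∀ i j k, i < j → j < k → 0 < cr (z i) (z j) (z k)

/-- `p, z_i (i ∈ ι)` is a strictly convex counterclockwise polygon -/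
structure Pfr {ι : Type*} [LinearOrder ι] (p : ℂ) (z : ι → ℂ) : Prop where
  a2 : ∀ i j, i < j → 0 < cr p (z i) (z j)
  p3 : ∀ i j k, i < j → j < k → 0 < cr (z i) (z j) (z k)

/-- `z_i (i ∈ ι)` is a strictly convex counterclockwise polygon -/
def Pos3 {ι : Type*} [LinearOrder ι] (z : ι → ℂ) : Prop :=
  ∀ i j k, i < j → j < k → 0 < cr (z i) (z j) (z k)

/-- `z` is in the open disc whose boundary goes through `a`, `b` and whose arc from `a` to `b`
(counterclockwise) has the inscribed angle (half central angle) `φ`, iff `dq a b φ z < 0`. -/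
def dq (a b : ℂ) (φ : ℝ) (z : ℂ) : ℝ :=
  ((z - b) * (starRingEnd ℂ) (a - z) * Complex.exp (-(φ * Complex.I))).im

/-- the half central angle of the arc from `a` to `w` of the circle through `a, w, b` -/
def al (a w b : ℂ) : ℝ := Complex.arg ((w - b) / (a - b))

/-- the half central angle of the arc from `w` to `b` -/
def ps (a w b : ℂ) : ℝ := Complex.arg ((b - a) / (w - a))

/-- the half central angle of the arc from `1` to `w` of the circle through `w` which is tangent at `1`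
to the unit circle -/
def at1 (w : ℂ) : ℝ := Real.pi / 2 + Complex.arg (1 - w)

/-- the chains in the cap -/
def ES (ι : Type*) [LinearOrder ι] (a b : ℂ) (φ : ℝ) : Set (ι → ℂ) :=
  {z | Chain a b z ∧ ∀ i, dq a b φ (z i) < 0}

/-- the convex polygons through the boundary point `1` of the unit disc -/
def TS (ι : Type*) [LinearOrder ι] : Set (ι → ℂ) := {z | Pfr 1 z ∧ ∀ i, ‖z i‖ < 1}

/-- the convex polygons in the unit disc -/
def CS (n : ℕ) : Set (Fin n → ℂ) := {z | Pos3 z ∧ ∀ i, ‖z i‖ < 1}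

end Pool.Agent.Helper98.DISC
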