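import Pool.Agent.Helper98.DISC.GoalsD

open MeasureTheory Set Filter Topology
open scoped ENNReal

noncomputable section

namespace Pool.Agent.Helper98.DISC

lemma yk_eq (n : ℕ) (hn : 1 ≤ n) (z : ℂ) :
    yk n z = PowerSeries.coeff (n - 1) (PowerSeries.derivative ℂ (Sz z) * (Sz z)⁻¹) := by
  obtain ⟨m, rfl⟩ : ∃ m, n = m + 1 := ⟨n - 1, by omega⟩
  unfold yk yz th
  rw [mul_assoc, PowerSeries.coeff_succ_X_mul]
  rfl

lemma Fm_pi_nonneg (hFN : S_FN) (hO : S_ODE) (m : ℕ) : 0 ≤ (Fm m Real.pi).re := by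
  have hc : Continuous (fun φ => (Fm m φ).re) := Complex.continuous_re.comp (hO.2.1 m).continuous
  have hmem : Real.pi ∈ closure (Ioo 0 Real.pi) := by
    rw [closure_Ioo Real.pi_pos.ne]
    exact ⟨Real.pi_pos.le, le_rfl⟩
  have hcl : IsClosed {φ : ℝ | 0 ≤ (Fm m φ).re} := isClosed_le continuous_const hc
  have hsub : closure (Ioo 0 Real.pi) ⊆ {φ : ℝ | 0 ≤ (Fm m φ).re} :=
    closure_minimal (fun φ hφ => (hFN.1 m φ hφ).2) hcl
  exact hsub hmem

theorem fin : S_FIN := by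
  intro hCSV hQN hFN hO n _ hn
  obtain ⟨m, rfl⟩ : ∃ m, n = m + 1 := ⟨n - 1, by omega⟩
  have h1 : qn (m + 1) = 2 * (Real.pi * (Fm m Real.pi).re) / Real.pi ^ (m + 1) := by
    rw [hQN (m + 1) hn, hCSV m, ENNReal.toReal_ofReal (mul_nonneg Real.pi_pos.le (Fm_pi_nonneg hFN hO m))]
  have h2 : ((Fm m Real.pi).re : ℂ) = Fm m Real.pi := by
    apply Complex.ext
    · simp
    · simp [hFN.2.1 m]
  have h3 : (qn (m + 1) : ℂ) = 2 * Fm m Real.pi / (Real.pi : ℂ) ^ m := by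
    rw [h1]
    push_cast
    rw [h2]
    have hp : (Real.pi : ℂ) ≠ 0 := by exact_mod_cast Real.pi_ne_zero
    rw [pow_succ]
    field_simp
  have hp : (Real.pi : ℂ) ≠ 0 := by exact_mod_cast Real.pi_ne_zero
  rw [h3]
  unfold Fm Cc
  have h4 : (∮ z in C(0, ((m : ℝ) + 1)), yk (m + 1) z * Complex.exp (2 * Complex.I * z * (Real.pi : ℝ))) =
      ∮ z in C(0, ((m + 1 : ℕ) : ℝ)), PowerSeries.coeff (m + 1 - 1) (PowerSeries.derivative ℂ (Sz z) * (Sz z)⁻¹) *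
      Complex.exp (2 * Real.pi * Complex.I * z) := by
    have : ((m + 1 : ℕ) : ℝ) = (m : ℝ) + 1 := by push_cast; ring
    rw [this]
    congr 1
    funext z
    rw [yk_eq (m + 1) (by omega) z]
    congr 2
    ring
  have h4' : (∮ z in C(0, ((m : ℝ) + 1)), yk (m + 1) z * Complex.exp (2 * Complex.I * z * ((Real.pi : ℝ) : ℂ))) =
      ∮ z in C(0, ((m + 1 : ℕ) : ℝ)), PowerSeries.coeff (m + 1 - 1) (PowerSeries.derivative ℂ (Sz z) * (Sz z)⁻¹) *
      Complex.exp (2 * Real.pi * Complex.I * z) := h4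
  rw [h4']
  generalize (∮ z in C(0, ((m + 1 : ℕ) : ℝ)), PowerSeries.coeff (m + 1 - 1) (PowerSeries.derivative ℂ (Sz z) * (Sz z)⁻¹) *
      Complex.exp (2 * Real.pi * Complex.I * z)) = J
  have e1 : (Complex.I / (2 * (Real.pi : ℂ))) ^ (m + 1) = (Complex.I / 2) ^ (m + 1) / (Real.pi : ℂ) ^ (m + 1) := by
    rw [← div_pow]
    congr 1
    field_simp
  rw [e1]
  have hI : Complex.I ≠ 0 := Complex.I_ne_zero
  rw [pow_succ (Real.pi : ℂ)]
  field_simp

end Pool.Agent.Helper98.DISC
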