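import Pool.Agent.Helper98.DISC.Defs

/-!
# Project DISC (MP_105b7b_pr), module A: the Toda equation and the functions y_k

Every `def S_XXX : Prop` is a packet; complete proofs in the docstrings; earlier goals may be used as
hypotheses.
-/

open MeasureTheory Set Filter Topology
open scoped Nat

noncomputable section

namespace Pool.Agent.Helper98.DISC

/-! ## Determinants -/

/-- DES (Desnanot-Jacobi / Dodgson / Sylvester identity).  `M` is `(n+2) × (n+2)`; `castSucc` skips the last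
index.  Proof: over the polynomial ring `ℤ[X_ij]` (a domain, generic matrix, `Matrix.mvPolynomialX`,
`Matrix.det_mvPolynomialX_ne_zero`) multiply `M` by the matrix whose first `n` columns are unit vectors and whose last two
columns are those of the adjugate: `M · [e_0 … e_(n-1), adj_n, adj_(n+1)] = [M_0 … M_(n-1), det·e_n, det·e_(n+1)]`; take determinants:
`det M · (2×2 minor of adj in rows and columns n, n+1) = det M ² · det (upper left n × n block)`; cancel `det M`; the entries of the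
adjugate are the signed minors (`Matrix.adjugate_fin_succ_eq_det_submatrix`).  Then map to `R`. -/
def S_DES : Prop := ∀ (R : Type) [CommRing R] (n : ℕ) (M : Matrix (Fin (n + 2)) (Fin (n + 2)) R),
  M.det * (M.submatrix (fun i : Fin n => i.castSucc.castSucc) (fun i : Fin n => i.castSucc.castSucc)).det =
    (M.submatrix (Fin.succAbove (Fin.last (n + 1))) (Fin.succAbove (Fin.last (n + 1)))).det *
      (M.submatrix (Fin.succAbove (Fin.last n).castSucc) (Fin.succAbove (Fin.last n).castSucc)).det -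
    (M.submatrix (Fin.succAbove (Fin.last n).castSucc) (Fin.succAbove (Fin.last (n + 1)))).det *
      (M.submatrix (Fin.succAbove (Fin.last (n + 1))) (Fin.succAbove (Fin.last n).castSucc)).det

/-- `W_N = det (θ^(i+j) μ)_(0 ≤ i,j < N)` -/
def Wd (μ : PowerSeries ℂ) (N : ℕ) : PowerSeries ℂ :=
  Matrix.det (Matrix.of fun i j : Fin N => th^[(i : ℕ) + j] μ)

/-- WT (uses S_DES).  The Toda equation for the Wronskians.  `θ` is a derivation; `θ` of a determinant is the sum over the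
rows of the determinant with that row differentiated; differentiating row `i` of the matrix gives row `i+1` (equal to the
next row, so the determinant vanishes, except for the last row): `θ W_N` is the minor of `W_(N+1)` without row `N-1` and column
`N`; differentiating columns in the same way, `θ² W_N` is the minor of `W_(N+1)` without row `N-1` and column `N-1`.  (The matrix is
symmetric, so the other mixed minor is also `θ W_N`.)  Apply S_DES to the matrix of size `N+1` (for `N = 1` directly: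
`W_0 = 1`, `W_1 = μ`, `W_2 = μ θ²μ - (θμ)²`). -/
def S_WT : Prop := ∀ (μ : PowerSeries ℂ) (N : ℕ), 1 ≤ N →
  Wd μ N * th (th (Wd μ N)) - th (Wd μ N) ^ 2 = Wd μ (N + 1) * Wd μ (N - 1)

/-- LC.  The coefficients of `W_N` for `μ = Σ w_l t^l`.  `θ^k μ = Σ l^k w_l t^l`; expanding the determinant
(`Matrix.det_apply`, `PowerSeries.coeff_prod`) the coefficient of `t^m` is
`Σ_(l : Fin N → ℕ, Σ l = m) ∏ w_(l_i) ∏ l_i^i Σ_σ sgn σ ∏ l_i^(σ i) = Σ_l ∏ w_(l_i) ∏ l_i^i V(l)`, `V` the Vandermonde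
determinant (`Matrix.det_vandermonde`).  Terms with non-injective `l` vanish; the injective ones are `l = m ∘ τ` with `m` strictly
decreasing and a permutation `τ`, `V(m∘τ) = sgn τ V(m)`, and the sum over `τ` of `sgn τ ∏ (m_(τ i))^i` is again `V(m)`. -/
def S_LC : Prop := ∀ (w : ℕ → ℂ) (N m : ℕ),
  PowerSeries.coeff m (Wd (PowerSeries.mk w) N) =
    ∑ l ∈ (Finset.univ : Finset (Fin N → Fin (m + 1))).filter
      (fun l : Fin N → Fin (m + 1) => StrictAnti l ∧ ∑ i, (l i : ℕ) = m),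
      (∏ i, w (l i : ℕ)) * (∏ i, ∏ j ∈ Finset.Ioi i, (((l i : ℕ) : ℂ) - (l j : ℕ))) ^ 2

/-- the weights `1/(l!² (b)_l)` -/
def wl (b : ℂ) (l : ℕ) : ℂ := ((l ! : ℂ) ^ 2 * ∏ j ∈ Finset.range l, (b + j))⁻¹

/-- PN (uses S_LC).  `W_N` and the partition sums, `b = z - N + 1`.  `l_i = λ_i + N - 1 - i` is a bijection between the antitone
`λ : Fin N → ℕ` with sum `k` and the strictly decreasing `l` with sum `k + N(N-1)/2` (a strictly decreasing sequence has
`l_i ≥ N - 1 - i`, so there is none if the sum is smaller than `N(N-1)/2`).  Content product: the box `(i,j)` has `z + j - i`, and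
`∏_(j<λ_i) (z + j - i) = (b)_(l_i) / (b)_(N-1-i)`.  So the coefficient is `κ_N Σ_λ d_λ^(N)² ∏ 1/(z+content)` with the sum over partitions with at
most `N` rows and `d_λ^(N) = ∏_(i<j)(l_i-l_j)/∏ l_i!` computed with `N` rows.  Stability: adding a zero row does not change `d_λ`
(`l_i → l_i + 1`, new `l = 0`: the numerator gets `∏ (l_i+1)`, and `(l_i+1)! = (l_i+1) l_i!`), and a partition of `k ≤ N` has at most `k` nonzero
rows; so for `k ≤ N` the sum equals `sk k z`. -/
def S_PN : Prop := ∀ (z : ℂ), (∀ m : ℤ, z ≠ m) → ∀ N : ℕ,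
  (∀ m, m < N * (N - 1) / 2 → PowerSeries.coeff m (Wd (PowerSeries.mk (wl (z - N + 1))) N) = 0) ∧
  ∀ k, k ≤ N → PowerSeries.coeff (k + N * (N - 1) / 2) (Wd (PowerSeries.mk (wl (z - N + 1))) N) =
    (∏ i ∈ Finset.range N, ∏ j ∈ Finset.range i, (z - N + 1 + j))⁻¹ * sk k z

/-- T1 (uses S_WT, S_PN).  The Toda equation for `S`.  For `N ≥ 1` and `b = z - N + 1` (the same `b` for `(N,z)` and
`(N±1, z±1)`) write `W_N = κ_N t^(e_N) S_N` with `e_N = N(N-1)/2`, `κ_N = ∏_(i<N) 1/(b)_i`; S_PN: the coefficients of `S_N` up to order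
`N` are those of `S(z)`.  As `θ(t^e S) = t^e (e + θ) S`, `W_N θ²W_N - (θW_N)² = κ_N² t^(2e_N) (S_N θ²S_N - (θS_N)²)`, and
`e_(N+1) + e_(N-1) = 2e_N + 1`, `κ_(N+1) κ_(N-1)/κ_N² = (b)_(N-1)/(b)_N = 1/z`; so S_WT gives
`S_N θ²S_N - (θS_N)² = (t/z) S_(N+1)(z+1) S_(N-1)(z-1)`.  Compare the coefficients of `t^k` for `N = k + 1`. -/
def S_T1 : Prop := ∀ z : ℂ, (∀ m : ℤ, z ≠ m) →
  Sz z * th (th (Sz z)) - th (Sz z) ^ 2 =
    PowerSeries.C z⁻¹ * PowerSeries.X * Sz (z + 1) * Sz (z - 1)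

/-! ## Consequences -/

/-- ZZ (uses S_T1).  The fundamental identity.  With `R = θy`: S_T1 says `R(z) = (t/z) S(z+1)S(z-1)/S(z)²`, hence
`θR = R(1 + y⁺ + y⁻ - 2y)`, `y^± = y(z±1)`.  Let `Z(z) = θ(y⁺+y) + (y⁺-y)² + z y⁺ - (z+1) y`, `Y(z) = R (z + y⁺ - y⁻)`.  Then
`θZ = Y(z+1) - Y(z)` and `θY - Y = R (Z(z) - Z(z-1))` (direct computations); the constant terms of `Z`, `Y` vanish and the coefficient
of `t` in `Y` is `1`; as `R = O(t)`, induction on the order gives `Y = t`, `Z = 0` (for all `z ∉ ℤ` simultaneously). -/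
def S_ZZ : Prop := ∀ z : ℂ, (∀ m : ℤ, z ≠ m) →
  th (yz (z + 1) + yz z) + (yz (z + 1) - yz z) ^ 2 + PowerSeries.C z * yz (z + 1) -
    PowerSeries.C (z + 1) * yz z = 0

/-- RR (uses S_T1).  The recursion: `k y_k = R_k`, `R_1 = 1/z`,
`(k-1) R_k(z) = Σ_(j=1)^(k-1) R_(k-j)(z) (y_j(z+1) + y_j(z-1) - 2 y_j(z))`, from `θR = R(1 + y⁺ + y⁻ - 2y)` (see S_ZZ); `y_0 = 0`. -/
def S_RR : Prop := ∀ z : ℂ, (∀ m : ℤ, z ≠ m) → yk 0 z = 0 ∧ yk 1 z = z⁻¹ ∧ ∀ k : ℕ, 2 ≤ k →
  ((k : ℂ) - 1) * (k * yk k z) =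
    ∑ x ∈ Finset.HasAntidiagonal.antidiagonal k, (x.1 * yk x.1 z) * (yk x.2 (z + 1) + yk x.2 (z - 1) - 2 * yk x.2 z)

/-- DIF.  `y_k` is holomorphic for `|z| > k - 1`.  The factors of `sk j z`, `j ≤ k`, are `z + content` with integral
contents of absolute value `≤ j - 1`; and `y_k = k s_k - Σ_(j<k) y_j s_(k-j)` (from `y S = θS`, `s_0 = 1`), induction on `k`;
`y_0 = 0`. -/
def S_DIF : Prop := ∀ (k : ℕ) (z : ℂ), (k : ℝ) < ‖z‖ + 1 → DifferentiableAt ℂ (yk k) z

/-- DCY (uses S_RR, S_DIF).  Decay.  For large `|z|` the recursion S_RR also holds at the integers (continuity).  By the Cauchy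
estimate on a disc of radius `|z|/2` a function holomorphic for `|z| > r` which is `O(|z|^(-d))` has a derivative `O(|z|^(-d-1))`, and
so `f(z+1) - f(z) = O(|z|^(-d-1))` (mean value inequality).  `y_1 = 1/z`, `y_1(z+1)+y_1(z-1)-2y_1(z) = 2/(z(z²-1))`, so
`y_2 = 1/(z²(z²-1))`, `O(|z|^(-4))`.  For `k ≥ 3` by induction: in the sum the term with `x = (k-j, j)` is, with `e_1 = 1`, `e_j = 2j` for
`j ≥ 2`, of size `O(|z|^(-(e_(k-j) + e_j + 1)))`, and `e_(k-j) + e_j + 1 ≥ 2k` except possibly when one of `j`, `k-j` is `1`, where it is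
`1 + 2(k-1) + 1 = 2k`. -/
def S_DCY : Prop := ∀ k : ℕ, 2 ≤ k → ∃ C r : ℝ, ∀ z : ℂ, r < ‖z‖ → ‖yk k z‖ * ‖z‖ ^ (2 * k) ≤ C

end Pool.Agent.Helper98.DISC
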