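import Pool.Agent.Helper98.DISC.GoalsE
import Pool.Agent.Helper98.DISC.GoalsA

/-!
# Project DISC (MP_105b7b_pr), module E2: the degree and the constant term of the polynomial

Every `def S_XXX : Prop` is a packet; complete proofs in the docstrings.
-/

open MeasureTheory Set Filter Topology

noncomputable section

namespace Pool.Agent.Helper98.DISC

/-- as `PFr`, moreover the coefficients of the highest order `k` are `0` at `m ≠ 0` and `c` at `m = 0` (used for `k ≥ 1`) -/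
def PFs (K k : ℕ) (c : ℚ) (f : ℂ → ℂ) : Prop := ∃ a : ℤ → ℕ → ℚ, (∀ z : ℂ, (K : ℝ) < ‖z‖ →
  f z = ∑ m ∈ Finset.Icc (-(K : ℤ)) K, ∑ l ∈ Finset.range k, (a m l : ℂ) / (z - m) ^ (l + 1)) ∧
  (∀ m : ℤ, m ≠ 0 → a m (k - 1) = 0) ∧ a 0 (k - 1) = c

/-- PFT (the proofs of S_PFM, S_PFY may be reused).  `PFs K j c f`, `PFs K k c' g` imply `PFs K (j+k) (c c') (f g)` (`j, k ≥ 1`): a pole of order `j + k` of the product at
`m` comes only from the product of the highest terms at the same `m`.  For `j ≥ 2` the product of `(z + content)⁻¹` over the `j` boxes of a partition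
of `j` is in `PFs K j 0`: the box `(0,0)` has content `0` and one of the boxes `(0,1)`, `(1,0)` belongs to the partition.  So `s_1 = 1/z` is in `PFs K 1 1`, `s_j` in `PFs K j 0`
for `2 ≤ j ≤ K + 1`, and `y_n = n s_n - Σ_(1 ≤ j < n) y_j s_(n-j)`: by induction (`K = n - 1` fixed) only `-y_(n-1) s_1` has a pole of order `n`, at `0`, with
coefficient `-(-1)^(n-2)`. -/
def S_PFT : Prop := ∀ n : ℕ, 1 ≤ n → PFs (n - 1) n ((-1) ^ (n - 1)) (yk n)

/-- the second statement: `q_n` is a polynomial in `1/π²` with rational coefficients, of degree at most `n/2 - 1`, with the constant term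
`2/(n-1)!` -/
def S_RAT2 : Prop := ∀ (n : ℕ) [NeZero n], 3 ≤ n → ∃ P : Polynomial ℚ, P.natDegree ≤ n / 2 - 1 ∧
  P.coeff 0 = 2 / ((n - 1).factorial : ℚ) ∧ qn n = Polynomial.aeval (1 / Real.pi ^ 2 : ℝ) P

/-- RATG (uses S_PFT, S_PFI, S_DCY).  `(qn n : ℂ) = -2 (i/2π)^n Σ_(m,l) a_(m,l) (2πi)^(l+1)/l!`; with `A_l = Σ_m a_(m,l)` and `l = n - 1 - s` this is
`-2 Σ_(s<n) A_(n-1-s)/(n-1-s)! · i^(2n-s) (2π)^(-s)`; the real part only contains the even `s = 2j`, and `A_0 = lim z y_n(z) = 0` by S_DCY (so `s = n - 1` does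
not occur: `2j ≤ n - 2`, `j ≤ n/2 - 1`): `P = Σ_(j ≤ n/2 - 1) (-2 A_(n-1-2j)/(n-1-2j)! (-1)^(n-j) 4^(-j)) X^j`, and `A_(n-1) = (-1)^(n-1)`. -/
def S_RATG : Prop := S_PFT → S_PFI → S_DCY → S_FINAL → S_RAT2

end Pool.Agent.Helper98.DISC
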