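import Pool.Agent.Helper98.DISC.GoalsE2

/-!
# Project DISC (MP_105b7b_pr), module F: the finite formula for `q_n` (rational arithmetic only)

The definitions of `d_λ`, `s_k`, `S`, `y_n` over an arbitrary field, and the Laurent expansions at the integers.
Every `def S_XXX : Prop` is a packet; complete proofs in the docstrings.
-/

open MeasureTheory Set Filter Topology

noncomputable section

namespace Pool.Agent.Helper98.DISC

/-- `d_λ`, in the field `F` -/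
def dF (F : Type) [Field F] {k : ℕ} (lam : Fin k → Fin (k + 1)) : F :=
  (∏ i, ∏ j ∈ Finset.Ioi i, ((ell lam i : F) - ell lam j)) / ∏ i, ((ell lam i).factorial : F)

/-- `s_k(z)`, `z ∈ F` -/
def sF (F : Type) [Field F] (k : ℕ) (z : F) : F :=
  ∑ lam ∈ prt k, dF F lam ^ 2 * ∏ i, ∏ j ∈ Finset.range (lam i), (z + j - i)⁻¹

/-- `S(z) = Σ_k s_k(z) t^k`, a power series in `t` over `F` -/
def SF (F : Type) [Field F] (z : F) : PowerSeries F := PowerSeries.mk fun k => sF F k z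

/-- `y_n(z)`: the coefficient of `t^(n-1)` in `S'(z)/S(z)`, i.e. `n` times the coefficient of `t^n` in `log S(z)` -/
def yF (F : Type) [Field F] (n : ℕ) (z : F) : F :=
  PowerSeries.coeff (n - 1) (PowerSeries.derivative F (SF F z) * (SF F z)⁻¹)

/-- `A_(n,l)`: the sum over the integers `|m| ≤ n` of the coefficient of `X^(-l-1)` in the Laurent series `y_n(m + X) ∈ ℚ((X))` -/
def Anl (n l : ℕ) : ℚ :=
  ∑ m ∈ Finset.Icc (-(n : ℤ)) n, (yF (LaurentSeries ℚ) n ((m : LaurentSeries ℚ) + HahnSeries.single 1 1)).coeff (-(l + 1 : ℤ))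

/-- the rational partial fraction expansion, valid in every field of characteristic `0` -/
def GP (K k : ℕ) (f : ∀ (F : Type) [Field F], F → F) : Prop := ∃ a : ℤ → ℕ → ℚ,
  ∀ (F : Type) [Field F] [CharZero F] (z : F), (∀ m ∈ Finset.Icc (-(K : ℤ)) K, z ≠ m) →
    f F z = ∑ m ∈ Finset.Icc (-(K : ℤ)) K, ∑ l ∈ Finset.range k, (a m l : F) / (z - m) ^ (l + 1)

/-- GPY (the proofs of S_PFM (Helper77/DISC/PFM.lean) and S_PFY (Helper49/DISC/PFY.lean) work over every field of characteristic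
`0`: replace `K < ‖z‖` by `z ≠ m` for `|m| ≤ K`). -/
def S_GPY : Prop := ∀ n : ℕ, 1 ≤ n → GP (n - 1) n (fun F _ z => yF F n z)

/-- LAU.  `F = LaurentSeries ℚ` (characteristic 0), `z = m + X` (`X = single 1 1`), which is not an integer.  For `m' ≠ m` the element `z - m' = (m-m') + X` is a unit of
`ℚ[[X]]`, its inverse powers have no negative coefficients; `(z-m)^(-l'-1) = X^(-l'-1)`. -/
def S_LAU : Prop := ∀ (n : ℕ), 1 ≤ n → ∀ a : ℤ → ℕ → ℚ,
  (∀ (F : Type) [Field F] [CharZero F] (z : F), (∀ m ∈ Finset.Icc (-((n - 1 : ℕ) : ℤ)) ((n - 1 : ℕ) : ℤ), z ≠ m) →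
    yF F n z = ∑ m ∈ Finset.Icc (-((n - 1 : ℕ) : ℤ)) ((n - 1 : ℕ) : ℤ), ∑ l ∈ Finset.range n, (a m l : F) / (z - m) ^ (l + 1)) →
  ∀ l, l < n → Anl n l = ∑ m ∈ Finset.Icc (-((n - 1 : ℕ) : ℤ)) ((n - 1 : ℕ) : ℤ), a m l

/-- THE FINAL STATEMENT, FINITE FORM -/
def S_EXPL : Prop := ∀ (n : ℕ) [NeZero n], 3 ≤ n →
  qn n = ∑ j ∈ Finset.range (n / 2),
    2 * (-1) ^ (n + 1 + j) / (4 ^ j * ((n - 1 - 2 * j).factorial : ℝ)) * (Anl n (n - 1 - 2 * j) : ℝ) / Real.pi ^ (2 * j)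

/-- EXPF.  `yF ℂ n = yk n` for `n ≥ 1` (unfold).  `(qn n : ℂ) = -2 (i/2π)^n Σ_(m,l) a_(m,l) (2πi)^(l+1)/l!` (the expansion of S_GPY on the circle `|z| = n`, S_PFI); with `A_l = Σ_m a_(m,l) = Anl n l` (S_LAU)
and `l = n - 1 - s` this is `-2 Σ_(s<n) A_(n-1-s)/(n-1-s)! · i^(2n-s) (2π)^(-s)`; the real part only contains the even `s = 2j` (`i^(2n-2j) = (-1)^(n-j)`), and
`A_0 = lim z y_n(z) = 0` by S_DCY, so `s = n - 1` does not occur: `2j ≤ n - 2`.  (See the proof of S_RATG in Helper2/DISC/RATG.lean.) -/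
def S_EXPF : Prop := S_GPY → S_LAU → S_PFI → S_DCY → S_FINAL → S_EXPL

end Pool.Agent.Helper98.DISC
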