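import Pool.Agent.Helper98.DISC.VOL

open MeasureTheory Set Filter Topology
open scoped ENNReal

noncomputable section

namespace Pool.Agent.Helper98.DISC

theorem tsv (hV : S_VOL) (hU : S_UN2) (hS : S_SP2) (hD : S_DTN) (hPU : S_PU) (hC : S_CRD) (hFN : S_FN)
    (hO : S_ODE) (hA : S_ANU) : S_TSV := by
  intro ι _ _
  rcases isEmpty_or_nonempty ι with hE | hne
  · rw [Fintype.card_eq_zero_iff.mpr hE, hO.1 Real.pi]
    simp only [Complex.one_re, ENNReal.ofReal_one]
    apply vol_isEmpty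
    exact ⟨fun i => 0, ⟨fun i => (hE.false i).elim, fun i => (hE.false i).elim⟩, fun i => (hE.false i).elim⟩
  · rw [hU ι]
    let g : ℕ → ℕ → ℝ≥0∞ := fun p q => ∫⁻ α in Ioo (0 : ℝ) Real.pi, ∫⁻ d in Ioo (0 : ℝ) (2 * Real.sin α),
      ENNReal.ofReal (d ^ (2 * p) * fm p α) * ENNReal.ofReal (d ^ (2 * q) * fm q (Real.pi - α)) * ENNReal.ofReal d
    have hj : ∀ j : ι, volume {z : ι → ℂ | z ∈ TS ι ∧ ∀ i, i ≠ j → dtn (z j) (z i) < 0} =
        g (Fintype.card {i // i < j}) (Fintype.card {i // j < i}) := by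
      intro j
      rw [hS ι j]
      show _ = ∫⁻ α in Ioo (0 : ℝ) Real.pi, ∫⁻ d in Ioo (0 : ℝ) (2 * Real.sin α), _
      rw [← hPU _ _ (fm (Fintype.card {i // i < j})) (fm (Fintype.card {i // j < i}))
        (hFN.2.2.1 _) (hFN.2.2.1 _)]
      apply setLIntegral_congr_fun
      · exact Metric.isOpen_ball.measurableSet
      · intro w hw
        have hw' : ‖w‖ < 1 := by simpa using hw
        obtain ⟨ht, _, _⟩ := hD w hw'
        have hw1 : (1 : ℂ) ≠ w := by
          rintro rfl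
          simp at hw'
        have e1 := hV {i // i < j} 1 w (at1 w) ht hw1
        have e2 := hV {i // j < i} w 1 (Real.pi - at1 w) ⟨by linarith [ht.2], by linarith [ht.1]⟩ (Ne.symm hw1)
        simp only [e1, e2]
    rw [Finset.sum_congr rfl (fun j _ => hj j)]
    have hn1 : 1 ≤ Fintype.card ι := Fintype.card_pos_iff.mpr hne
    rw [hC ι g]
    exact hA (Fintype.card ι) hn1

end Pool.Agent.Helper98.DISC
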