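import Pool.Agent.Helper98.DISC.FIN
import Pool.Agent.Helper98.DISC.CSV
import Pool.Agent.Helper98.DISC.TSV
import Pool.Agent.Helper98.DISC.GoalsE2
import Pool.Agent.Helper15.DISC.LIN
import Pool.Agent.Helper2.DISC.CRD
import Pool.Agent.Helper2.DISC.LC
import Pool.Agent.Helper2.DISC.PV
import Pool.Agent.Helper26.DISC.BAL
import Pool.Agent.Helper31.DISC.DES
import Pool.Agent.Helper31.DISC.SIM
import Pool.Agent.Helper33.DISC.PU
import Pool.Agent.Helper37.DISC.BI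
import Pool.Agent.Helper38.DISC.FUB
import Pool.Agent.Helper38.DISC.PGA
import Pool.Agent.Helper39.DISC.DC1
import Pool.Agent.Helper48.DISC.DC2
import Pool.Agent.Helper49.DISC.ANU
import Pool.Agent.Helper49.DISC.CNJ
import Pool.Agent.Helper49.DISC.UN1
import Pool.Agent.Helper5.DISC.SP2
import Pool.Agent.Helper50.DISC.T1
import Pool.Agent.Helper51.DISC.DIF
import Pool.Agent.Helper51.DISC.SHF
import Pool.Agent.Helper56.DISC.DCY
import Pool.Agent.Helper56.DISC.DTN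
import Pool.Agent.Helper58.DISC.KG
import Pool.Agent.Helper62.DISC.SAM
import Pool.Agent.Helper68.DISC.ANA
import Pool.Agent.Helper68.DISC.ZZ
import Pool.Agent.Helper69.DISC.EXT
import Pool.Agent.Helper69.DISC.WT
import Pool.Agent.Helper70.DISC.UN2
import Pool.Agent.Helper72.DISC.VAN
import Pool.Agent.Helper79.DISC.CNV
import Pool.Agent.Helper79.DISC.PFI
import Pool.Agent.Helper79.DISC.PN
import Pool.Agent.Helper79.DISC.QN
import Pool.Agent.Helper79.DISC.SP1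
import Pool.Agent.Helper8.DISC.LEV
import Pool.Agent.Helper83.DISC.PGB
import Pool.Agent.Helper84.DISC.NulP
import Pool.Agent.Helper29.DISC.ODE
import Pool.Agent.Helper2.DISC.EXPF
import Pool.Agent.Helper34.DISC.LAU
import Pool.Agent.Helper37.DISC.GPY
import Pool.Agent.Helper98.DISC.GoalsF
import Pool.Agent.Helper83.DISC.RAD
import Pool.Agent.Helper83.DISC.SP3
import Pool.Agent.Helper83.DISC.UN3
import Pool.Agent.Helper90.DISC.RR
import Pool.Agent.Helper93.DISC.FN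

/-!
# Project DISC (MP_105b7b_pr): assembly
-/

noncomputable section

namespace Pool.Agent.Helper98.DISC

theorem g_T1 : S_T1 := Helper50.DISC.t1 (Helper69.DISC.wt Helper31.DISC.des) (Helper79.DISC.pn Helper2.DISC.LC)

theorem g_ZZ : S_ZZ := Helper68.DISC.ZZ.thm g_T1

theorem g_RR : S_RR := Helper90.DISC.rr g_T1

theorem g_DIF : S_DIF := Helper51.DISC.dif

theorem g_DCY : S_DCY := Helper56.DISC.dcy g_RR g_DIF

theorem g_RAD : S_RAD := Helper83.DISC.RAD.rad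

theorem g_EXT : S_EXT := Helper69.DISC.ext

theorem g_CNV : S_CNV := Helper79.DISC.cnv g_RAD g_EXT

theorem g_SHF : S_SHF := Helper51.DISC.shf

theorem g_VAN : S_VAN := Helper72.DISC.van g_DCY g_DIF

theorem g_FN (hO : S_ODE) : S_FN := Helper93.DISC.fn hO g_VAN

theorem g_ANA (hO : S_ODE) : S_ANA := Helper68.DISC.ANA.thm hO (g_FN hO)

theorem g_ANU (hO : S_ODE) : S_ANU := Helper49.DISC.anu (g_FN hO)

theorem g_LEV : S_LEV := Helper8.DISC.lev Helper62.DISC.sam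

theorem g_DC1 : S_DC1 := Helper39.DISC.dc1 Helper26.DISC.bal Helper62.DISC.sam g_LEV Helper58.DISC.kg

theorem g_DC2 : S_DC2 := Helper48.DISC.dc2 Helper56.DISC.dtn_holds Helper58.DISC.kg

theorem g_SIM : S_SIM := Helper31.DISC.sim lin_holds

theorem g_UN1 (hN : S_NUL) : S_UN1 := Helper49.DISC.un1 Helper26.DISC.bal Helper62.DISC.sam g_LEV hN

theorem g_SP1 : S_SP1 := Helper79.DISC.sp1 g_DC1 Helper38.DISC.fub

theorem g_SP2 : S_SP2 := Helper5.DISC.sp2 g_DC2 Helper38.DISC.fub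

theorem g_VOL (hO : S_ODE) (hN : S_NUL) : S_VOL :=
  vol Helper62.DISC.sam g_SIM (g_UN1 hN) g_SP1 Helper2.DISC.PV Helper2.DISC.CRD (g_FN hO) hO (g_ANA hO)

theorem g_TSV (hO : S_ODE) (hN : S_NUL) : S_TSV :=
  tsv (g_VOL hO hN) (Helper70.DISC.un2 hN) g_SP2 Helper56.DISC.dtn_holds PkPU.thm Helper2.DISC.CRD (g_FN hO) hO (g_ANU hO)

theorem g_CSV (hO : S_ODE) (hN : S_NUL) : S_CSV :=
  csv (g_TSV hO hN) (Helper83.DISC.UN3.un3 hN) Helper83.DISC.SP3.sp3 g_SIM Helper37.DISC.bi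

theorem g_QN (hN : S_NUL) : S_QN :=
  Helper79.DISC.qn_eq Helper38.DISC.pga Helper83.DISC.PGB.pgb Helper49.DISC.cnj hN

theorem g_NUL : S_NUL := Helper84.DISC.nul

theorem g_ODE : S_ODE := Helper29.DISC.ode g_RAD g_CNV g_SHF g_ZZ g_RR g_DIF g_DCY

theorem g_FINAL : S_FINAL := fin (g_CSV g_ODE g_NUL) (g_QN g_NUL) (g_FN g_ODE) g_ODE

theorem g_EXPL : S_EXPL := Helper2.DISC.EXPF Helper37.DISC.gpy Helper34.DISC.LAU Helper79.DISC.pfi g_DCY g_FINAL

end Pool.Agent.Helper98.DISC
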