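import Pool.Agent.Helper98.DISC.Defs

/-!
# Project DISC (MP_105b7b_pr), module C: plane geometry

Every `def S_XXX : Prop` is a packet; complete proofs in the docstrings; earlier goals may be used as
hypotheses.  `cr a b c = cr b c a = -cr b a c` (ring), `0 < cr a b c` = counterclockwise.
-/

open MeasureTheory Set Filter Topology

noncomputable section

namespace Pool.Agent.Helper98.DISC

/-- for `0 < cr a w b`: `dlt a b w z < 0` iff `z` is in the open disc bounded by the circle through `a, w, b` -/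
def dlt (a b w z : ℂ) : ℝ := ((z - b) * (a - w) * (starRingEnd ℂ) ((a - z) * (w - b))).im

/-- for `0 < (1 - w).re`: `dtn w z < 0` iff `z` is in the open disc bounded by the circle through `1, w` with a vertical
tangent at `1` -/
def dtn (w z : ℂ) : ℝ := ‖1 - z‖ ^ 2 * (1 - w).re - ‖1 - w‖ ^ 2 * (1 - z).re

/-- BAL.  With `e = e^(-iφ)`, `m = e·conj a - conj e · conj b`:
`dq a b φ z = sin φ |z|² + z.re m.im + z.im m.re - Im(e b conj a)`; so `κ = sin φ`, `c = -(m.im + i m.re)/(2 sin φ)`, and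
`dq a b φ z = κ(‖z-c‖² - K)` for a constant `K`; `dq` vanishes at `a` and `b`, so `K = ‖a-c‖² = ‖b-c‖²`, `R = ‖a-c‖`,
which is positive because `a ≠ b`. -/
def S_BAL : Prop := ∀ (a b : ℂ) (φ : ℝ), φ ∈ Ioo 0 Real.pi → a ≠ b → ∃ (c : ℂ) (R κ : ℝ),
  0 < R ∧ 0 < κ ∧ ‖a - c‖ = R ∧ ‖b - c‖ = R ∧ ∀ z, dq a b φ z = κ * (‖z - c‖ ^ 2 - R ^ 2)

/-- SAM.  The angles of the positively oriented triangle `a w b` at `b`, `a` are `al`, `ps`: `e^(i al) = u/|u|` with
`u = (w-b)/(a-b)`, whose imaginary part is `cr a w b/‖a-b‖²`, `e^(i ps) = v/|v|`, `v = (b-a)/(w-a)`, and `u v = (b-w)/(w-a)` has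
positive imaginary part (so `al + ps ∈ (0,2π)` with positive sine is `< π`).  The three formulas: `e^(-i al)` is a positive multiple of
`conj(w-b)(a-b)` etc., so they say `Im((z-w)(a-b)·conj((a-z)(w-b))) = dlt a b w z`, `Im((z-b)(w-a)·conj((w-z)(b-a))) = dlt a b w z`, which hold
because of `(z-w)(a-b) - (z-b)(a-w) = (z-a)(w-b)` and `(w-z)(b-a) = (z-a)(w-b) + (z-b)(a-w)` (the difference is real), and the third
is the definition. -/
def S_SAM : Prop := ∀ a b w : ℂ, 0 < cr a w b →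
  (0 < al a w b ∧ 0 < ps a w b ∧ al a w b + ps a w b < Real.pi) ∧
  (∀ z, dlt a b w z = ‖w - b‖ * ‖a - b‖ * dq a w (al a w b) z) ∧
  (∀ z, dlt a b w z = ‖a - b‖ * ‖w - a‖ * dq w b (ps a w b) z) ∧
  ∀ z, dlt a b w z = ‖w - b‖ * ‖w - a‖ * dq a b (al a w b + ps a w b) z

/-- LEV (uses S_SAM).  For `0 < cr a z b`: `(z-b)·conj(a-z) = ‖z-b‖‖z-a‖ e^(i(al a z b + ps a z b))`, so
`dq a b φ z = ‖z-b‖‖z-a‖ sin(al a z b + ps a z b - φ)`; use this with `φ` and (S_SAM) with `φ = al a w b + ps a w b`. -/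
def S_LEV : Prop := ∀ a b w : ℂ, 0 < cr a w b →
  (∀ φ ∈ Ioo 0 Real.pi, (dq a b φ w < 0 ↔ al a w b + ps a w b < φ)) ∧
  ∀ z, 0 < cr a z b →
    (dlt a b w z < 0 ↔ al a z b + ps a z b < al a w b + ps a w b) ∧
    (dlt a b w z = 0 ↔ al a z b + ps a z b = al a w b + ps a w b)

/-- KG.  Gluing of chains.  Let `L` be the left points (`a` and the `z_i`, `i < j`) and `Q` the right points (`z_k`, `k > j`, and `b`).
(0) Slopes at `w`: for `p ≠ w` in the closed disc `Re((p-w)·conj(c-w)) = (‖p-w‖² + R² - ‖p-c‖²)/2 > 0`; so with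
`s(p) = Im((p-w) conj(c-w))/Re((p-w) conj(c-w))` the sign of `cr w q p` is the sign of `s(p) - s(q)` (or of the opposite, everywhere).
From `0 ≤ cr w a p` (`p ∈ L`; `> 0` if `p ≠ a`), `0 < cr w b a` or `a = b`, `0 ≤ cr w r b` (`r ∈ Q`; `> 0` if `r ≠ b`) one gets
(1) `0 < cr p w r` for `p ∈ L`, `r ∈ Q` (if `a = b`: unless `p = a`, `r = b`).
(2) Let `p ∈ L`, `p ≠ a`, `q = z_i`, `i < j` later than `p` in the left chain, `r ∈ Q` with `0 < cr a w r`.  Then `0 < cr p q r`: otherwise put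
`Q = q-p, A = a-p, R = r-p, W = w-p` (`×` the cross product): `Q×R ≤ 0`, `Q×A = cr a p q > 0`, `Q×W > 0`, `W×R = cr p w r > 0`, `W×A = cr a p w > 0` and
`(Q×W)(A×R) = (Q×A)(W×R) - (Q×R)(W×A) ≥ 0`, so `A×R ≥ 0`, and
`(W×R) a = (A×R) w + (W×A) r + (cr w r a) p` with non-negative coefficients of sum `W×R > 0`, `cr w r a = cr a w r > 0`:
`a` is a convex combination of the points `w, r, p` of the closed disc with a positive coefficient of `p`, `‖p-c‖ < R`: then `‖a-c‖ < R`,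
a contradiction.
(3) `p = a`: `0 < cr a q w`, `0 < cr a w r` imply `0 < cr a q r` by slopes at `a` (as in (0)) for `q = z_i`, `i < j`, `r ∈ Q`, `r ≠ a`.
(`0 < cr a w r`: `r = b ≠ a` given; `r = z_k`: (1) with `p = a`.)
(4) If `a = b`, `r = b`: `cr p q b = cr a p q > 0` is part of the left chain.
(5) The mirror statements for `p ∈ L`, `q, r ∈ Q`.
All triples of `Chain a b z` (resp. `Pfr a z`) are triples of one of the given chains or of the types (1)-(5). -/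
def S_KG : Prop := ∀ (ι : Type) [Fintype ι] [LinearOrder ι] (c a b : ℂ) (R : ℝ) (z : ι → ℂ) (j : ι),
  ‖a - c‖ = R → ‖b - c‖ = R → ‖z j - c‖ = R → a ≠ z j → b ≠ z j →
  (∀ i, i ≠ j → ‖z i - c‖ < R) →
  Chain a (z j) (fun i : {i // i < j} => z i) → Chain (z j) b (fun i : {i // j < i} => z i) →
  (0 < cr a (z j) b → Chain a b z) ∧ (a = b → Pfr a z)

/-- left part -/
def EL (ι : Type*) [LinearOrder ι] (a b w : ℂ) : Set (ι → ℂ) := {z | Chain a w z ∧ ∀ i, dlt a b w (z i) < 0}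

/-- right part -/
def ER (ι : Type*) [LinearOrder ι] (a b w : ℂ) : Set (ι → ℂ) := {z | Chain w b z ∧ ∀ i, dlt a b w (z i) < 0}

/-- left part, tangent case -/
def FL (ι : Type*) [LinearOrder ι] (w : ℂ) : Set (ι → ℂ) := {z | Chain 1 w z ∧ ∀ i, dtn w (z i) < 0}

/-- right part, tangent case -/
def FR (ι : Type*) [LinearOrder ι] (w : ℂ) : Set (ι → ℂ) := {z | Chain w 1 z ∧ ∀ i, dtn w (z i) < 0}

/-- DC1 (uses S_BAL, S_SAM, S_LEV, S_KG).  `→`: restrict the chain (all triples of the parts are triples of `a, z, b`).  `←`: S_KG for the circle of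
S_BAL with `φ = al a w b + ps a w b`, `w = z j` (S_SAM: it goes through `w` as `dlt a b w w = 0`, and `dlt a b w z < 0` iff `z` is in the open disc; `a ≠ w ≠ b`
as `0 < cr a w b`); `dq a b φ (z i) < 0` by S_LEV: the level of `z i` is smaller than the level of `z j`.  The last two claims: S_SAM. -/
def S_DC1 : Prop := (∀ (ι : Type) [Fintype ι] [LinearOrder ι] (a b : ℂ) (φ : ℝ), φ ∈ Ioo 0 Real.pi → a ≠ b → ∀ (j : ι) (z : ι → ℂ),
  (z ∈ ES ι a b φ ∧ ∀ i, i ≠ j → dlt a b (z j) (z i) < 0) ↔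
    (0 < cr a (z j) b ∧ dq a b φ (z j) < 0) ∧ (fun i : {i // i < j} => z i) ∈ EL {i // i < j} a b (z j) ∧
      (fun i : {i // j < i} => z i) ∈ ER {i // j < i} a b (z j)) ∧
  ∀ (ι : Type) [Fintype ι] [LinearOrder ι] (a b w : ℂ), 0 < cr a w b →
    EL ι a b w = ES ι a w (al a w b) ∧ ER ι a b w = ES ι w b (ps a w b)

/-- DTN.  `e^(-i at1 w) = -i·conj(1-w)/‖1-w‖`; with `u = 1-z`, `v = 1-w`: `z - w = v - u`, `z - 1 = -u`, `w - z = u - v`. -/
def S_DTN : Prop := ∀ w : ℂ, ‖w‖ < 1 → at1 w ∈ Ioo 0 Real.pi ∧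
  (∀ z, dtn w z = ‖1 - w‖ * dq 1 w (at1 w) z) ∧ ∀ z, dtn w z = ‖1 - w‖ * dq w 1 (Real.pi - at1 w) z

/-- DC2 (uses S_DTN, S_KG).  As S_DC1; the circle: centre `1 - R`, radius `R = ‖1-w‖²/(2 Re(1-w))`, `w = z j`:
`dtn w z = Re(1-w) (‖z-c‖² - R²)`; `‖z i‖ < 1`: from `dtn w (z i) < 0`, `‖1-w‖² < 2 Re(1-w)` (`⟺ ‖w‖ < 1`) follows
`‖1 - z i‖² < 2 Re(1 - z i)`. -/
def S_DC2 : Prop := (∀ (ι : Type) [Fintype ι] [LinearOrder ι] (j : ι) (z : ι → ℂ),
  (z ∈ TS ι ∧ ∀ i, i ≠ j → dtn (z j) (z i) < 0) ↔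
    ‖z j‖ < 1 ∧ (fun i : {i // i < j} => z i) ∈ FL {i // i < j} (z j) ∧
      (fun i : {i // j < i} => z i) ∈ FR {i // j < i} (z j)) ∧
  ∀ (ι : Type) [Fintype ι] [LinearOrder ι] (w : ℂ), ‖w‖ < 1 →
    FL ι w = ES ι 1 w (at1 w) ∧ FR ι w = ES ι w 1 (Real.pi - at1 w)

/-! ## Polygons -/

/-- PGA.  For all `i` and `m ≠ i, i+1` (cyclic): `0 < cr (x i) (x (i+1)) (x m)`.  `K = {z | ∀ i, 0 < cr (x i) (x (i+1)) z}`: open, convex; the centroid
of the points is in `K`; `K` is nonempty, so `closure K = {z | ∀ i, 0 ≤ cr (x i) (x (i+1)) z} =: C` (open segments from points of `C` to points of `K` are in `K`), the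
frontier is `{z ∈ C | ∃ i, cr (x i) (x (i+1)) z = 0}`, and `{z ∈ C | cr (x i) (x (i+1)) z = 0}` is the edge `i`: write `z = x i + t(x (i+1) - x i)`;
`0 ≤ cr (x (i+1)) (x (i+2)) z = (1-t) cr (x (i+1)) (x (i+2)) (x i)` and `0 ≤ cr (x (i-1)) (x i) z = t·cr (x (i-1)) (x i) (x (i+1))`.
Bounded: for `z ∈ K` let `m` be the largest index `≥ 1` with `0 ≤ cr (x 0) (x m) z` (`m = 1` is one, `m = n-1` is not); then `z` is a convex combination of
`x 0, x m, x (m+1)` (barycentric coordinates `cr (x m) (x (m+1)) z`, `cr (x (m+1)) (x 0) z`, `cr (x 0) (x m) z`, sum `cr (x 0) (x m) (x (m+1))`).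
Simple: on edge `j` the function `cr (x i) (x (i+1)) ·` is positive unless `j ∈ {i-1, i, i+1}`; adjacent edges: a point of both is
`x i + t(x (i+1) - x i)` with `cr (x (i+1)) (x (i+2)) z = 0`, so `t = 1`. -/
def S_PGA : Prop := ∀ (n : ℕ) [NeZero n] (x : Fin n → ℂ), 3 ≤ n → Pos3 x → IsConvexPolygon x

/-- PGB.  Let `K` be the convex region, `i` an index.  The midpoint `p` of edge `i` is in `frontier K`, so `p ∉ K` and there is (Hahn-Banach,
`geometric_hahn_banach_open_point`) a linear functional `ℓ` with `ℓ < ℓ p` on `K`, `ℓ ≤ ℓ p` on `closure K`, which contains all `x m`; as `p` is the midpoint,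
`ℓ (x i) = ℓ (x (i+1)) = ℓ p`.  So `ℓ - ℓ p` is a multiple of `cr (x i) (x (i+1)) ·` and all the numbers `cr (x i) (x (i+1)) (x m)`, `m ≠ i, i+1`, (nonzero by
hypothesis) have the same sign `ε_i`.  `ε_i` is the sign of `cr (x i) (x (i+1)) (x (i+2))`, and also `ε_(i+1)` is; so all signs are equal.  If they are positive: for
`i < j < k`, with `v_m = x m - x i`: `v_m × v_(m+1) > 0` (`m ≠ i, i-1`), `v_(i+1) × v_m > 0` for `m ≠ i, i+1`, and for `e = v_(i+1)`,
`(e×v)(u×w) = (e×u)(v×w) + (e×w)(u×v)` gives `v_j × v_k > 0` by induction on `k`.  If they are negative the same for the reflected points or with all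
signs changed. -/
def S_PGB : Prop := ∀ (n : ℕ) [NeZero n] (x : Fin n → ℂ), 3 ≤ n →
  (∀ i j k, i < j → j < k → cr (x i) (x j) (x k) ≠ 0) → IsConvexPolygon x →
    Pos3 x ∨ ∀ i j k, i < j → j < k → cr (x i) (x j) (x k) < 0

/-- CNJ.  Complex conjugation is an ℝ-linear homeomorphism (images of segments, frontier, convex, open, bounded sets);
`cr` changes its sign. -/
def S_CNJ : Prop := (∀ (n : ℕ) [NeZero n] (x : Fin n → ℂ),
    IsConvexPolygon (fun i => (starRingEnd ℂ) (x i)) ↔ IsConvexPolygon x) ∧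
  ∀ a b c : ℂ, cr ((starRingEnd ℂ) a) ((starRingEnd ℂ) b) ((starRingEnd ℂ) c) = -cr a b c

end Pool.Agent.Helper98.DISC
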