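import Pool.Agent.Helper98.DISC.GoalsB
import Pool.Agent.Helper98.DISC.GoalsC

/-!
# Project DISC (MP_105b7b_pr), module D: measure theory

Every `def S_XXX : Prop` is a packet; complete proofs in the docstrings; earlier goals may be used as
hypotheses (also those of GoalsA, GoalsB, GoalsC).  All sets below given by finitely many strict inequalities between continuous
functions are open, hence measurable.
-/

open MeasureTheory Set Filter Topology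
open scoped ENNReal

noncomputable section

namespace Pool.Agent.Helper98.DISC

/-- NUL.  Fubini for the coordinate `j` (`volume_preserving_piEquivPiSubtypeProd` with the predicate `(· = j)`,
`MeasurableEquiv.funUnique`, `Measure.measure_prod_null`). -/
def S_NUL : Prop := ∀ (ι : Type) [Fintype ι] [DecidableEq ι] (j : ι) (A : Set (ι → ℂ)), MeasurableSet A →
  (∀ z : ι → ℂ, volume {t : ℂ | Function.update z j t ∈ A} = 0) → volume A = 0

/-- FUB.  Fubini: the coordinates are `j`, those `< j` and those `> j`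
(`volume_preserving_piEquivPiSubtypeProd` twice, or `volume_measurePreserving_piCongrLeft` and
`volume_measurePreserving_sumPiEquivProdPi`); `Measure.prod_apply`, `Measure.prod_prod` on the slices. -/
def S_FUB : Prop := ∀ (ι : Type) [Fintype ι] [LinearOrder ι] (j : ι) (G : Set ℂ)
  (L : Set (ℂ × ({i // i < j} → ℂ))) (Q : Set (ℂ × ({i // j < i} → ℂ))),
  MeasurableSet G → MeasurableSet L → MeasurableSet Q →
  volume {z : ι → ℂ | z j ∈ G ∧ (z j, fun i : {i // i < j} => z i) ∈ L ∧ (z j, fun i : {i // j < i} => z i) ∈ Q} =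
    ∫⁻ w in G, volume {u | (w, u) ∈ L} * volume {u | (w, u) ∈ Q}

/-- LIN.  Translation invariance; `c = ‖c‖ e^(iθ)`: scaling by `‖c‖` (`Measure.addHaar_image_homothety` or `Measure.addHaar_smul`,
`finrank ℝ (ι → ℂ) = 2 card ι`) and a rotation in every coordinate (measure preserving: `volume_preserving_pi`,
`LinearIsometryEquiv.measurePreserving`). -/
def S_LIN : Prop := ∀ (ι : Type) [Fintype ι] (c d : ℂ), c ≠ 0 → ∀ A : Set (ι → ℂ),
  volume ((fun z : ι → ℂ => fun i => c * z i + d) '' A) = ENNReal.ofReal (‖c‖ ^ (2 * Fintype.card ι)) * volume A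

/-- SIM (uses S_LIN).  The sets are the images of `ES ι 1 0 φ`, `TS ι` under `z ↦ (a-b) z + b`, `z ↦ w z`:
`cr (cx+d) (cy+d) (cz+d) = ‖c‖² cr x y z`, `dq a b φ ((a-b) z + b) = ‖a-b‖² dq 1 0 φ z`. -/
def S_SIM : Prop := (∀ (ι : Type) [Fintype ι] [LinearOrder ι] (a b : ℂ) (φ : ℝ), a ≠ b →
    volume (ES ι a b φ) = ENNReal.ofReal (‖a - b‖ ^ (2 * Fintype.card ι)) * volume (ES ι 1 0 φ)) ∧
  ∀ (ι : Type) [Fintype ι] [LinearOrder ι] (w : ℂ), w ≠ 0 →
    volume {u : ι → ℂ | Pfr w u ∧ ∀ i, ‖u i‖ < ‖w‖} = ENNReal.ofReal (‖w‖ ^ (2 * Fintype.card ι)) * volume (TS ι)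

/-- PV.  Polar coordinates (`Complex.lintegral_comp_polarCoord_symm`) `w = r e^(iα)`, `0 < α < π`, and for fixed `α` the substitution
`r = sin ψ/sin(α+ψ)`, `ψ ∈ (0, π-α)`, increasing, `dr/dψ = sin α/sin(α+ψ)²` (`lintegral_image_eq_lintegral_abs_deriv_mul`).
For this `w`: `al 1 w 0 = α`, `ps 1 w 0 = ψ` (`1 - w = (sin α/sin(α+ψ)) e^(-iψ)`), `‖1-w‖ = sin α/sin(α+ψ)`, and `dq 1 0 φ w < 0 ⟺ α + ψ < φ`
(`dq 1 0 φ w = ‖w‖‖1-w‖ sin(α+ψ-φ)`); the region is `0 < α < φ`, `0 < ψ < φ - α`. -/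
def S_PV : Prop := ∀ φ ∈ Ioo (0 : ℝ) Real.pi, ∀ (p q : ℕ) (f g : ℝ → ℝ),
  ContinuousOn f (Ioo 0 Real.pi) → ContinuousOn g (Ioo 0 Real.pi) →
  ∫⁻ w in {w : ℂ | 0 < cr 1 w 0 ∧ dq 1 0 φ w < 0},
    ENNReal.ofReal (‖1 - w‖ ^ (2 * p) * f (al 1 w 0)) * ENNReal.ofReal (‖w - 0‖ ^ (2 * q) * g (ps 1 w 0)) =
  ∫⁻ α in Ioo (0 : ℝ) φ, ∫⁻ ψ in Ioo (0 : ℝ) (φ - α),
    ENNReal.ofReal ((Real.sin α / Real.sin (α + ψ)) ^ (2 * p) * f α) *
    ENNReal.ofReal ((Real.sin ψ / Real.sin (α + ψ)) ^ (2 * q) * g ψ) *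
    ENNReal.ofReal (Real.sin α * Real.sin ψ / Real.sin (α + ψ) ^ 3)

/-- PU.  `w = 1 - v`, `v = d e^(iβ)` (polar coordinates), `at1 w = π/2 + β`; `‖w‖ < 1 ⟺ d² < 2 d cos β`, i.e. `β ∈ (-π/2, π/2)`, `d < 2 cos β`;
`α = π/2 + β`. -/
def S_PU : Prop := ∀ (p q : ℕ) (f g : ℝ → ℝ),
  ContinuousOn f (Ioo 0 Real.pi) → ContinuousOn g (Ioo 0 Real.pi) →
  ∫⁻ w in Metric.ball (0 : ℂ) 1,
    ENNReal.ofReal (‖1 - w‖ ^ (2 * p) * f (at1 w)) * ENNReal.ofReal (‖w - 1‖ ^ (2 * q) * g (Real.pi - at1 w)) =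
  ∫⁻ α in Ioo (0 : ℝ) Real.pi, ∫⁻ d in Ioo (0 : ℝ) (2 * Real.sin α),
    ENNReal.ofReal (d ^ (2 * p) * f α) * ENNReal.ofReal (d ^ (2 * q) * g (Real.pi - α)) * ENNReal.ofReal d

/-- BI.  Polar coordinates. -/
def S_BI : Prop := ∀ m : ℕ, ∫⁻ w in Metric.ball (0 : ℂ) 1, ENNReal.ofReal (‖w‖ ^ (2 * m)) =
  ENNReal.ofReal (Real.pi / (m + 1))

/-- CRD.  Transport to `Fin n` (`Fintype.orderIsoFinOfCardEq`): the cardinalities are `j` and `n - 1 - j`;
`Finset.Nat.sum_antidiagonal_eq_sum_range_succ`. -/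
def S_CRD : Prop := ∀ (ι : Type) [Fintype ι] [LinearOrder ι] [Nonempty ι] (g : ℕ → ℕ → ℝ≥0∞),
  ∑ j : ι, g (Fintype.card {i // i < j}) (Fintype.card {i // j < i}) =
    ∑ x ∈ Finset.HasAntidiagonal.antidiagonal (Fintype.card ι - 1), g x.1 x.2

/-- UN1 (uses S_BAL, S_SAM, S_LEV, S_NUL).  For `z ∈ ES ι a b φ` let `j` maximise the level `al a (z j) b + ps a (z j) b`: by S_LEV either
all `dlt a b (z j) (z i) < 0`, `i ≠ j`, or `dlt a b (z j) (z i) = 0` for some `i ≠ j`.  The sets on the right side are open, contained in `ES ι a b φ` and disjoint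
(`dlt a b w z = -dlt a b z w`); the sets `{z | 0 < cr a (z j) b ∧ dlt a b (z j) (z i) = 0}`, `i ≠ j`, are null: S_NUL for the coordinate `i`;
for fixed `w = z j` the set `{t | dlt a b w t = 0}` is a circle (S_SAM third formula and S_BAL), `Measure.addHaar_sphere`. -/
def S_UN1 : Prop := ∀ (ι : Type) [Fintype ι] [LinearOrder ι] [Nonempty ι] (a b : ℂ) (φ : ℝ),
  φ ∈ Ioo 0 Real.pi → a ≠ b →
  volume (ES ι a b φ) = ∑ j, volume {z : ι → ℂ | z ∈ ES ι a b φ ∧ ∀ i, i ≠ j → dlt a b (z j) (z i) < 0}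

/-- UN2 (uses S_NUL).  The same with the level `‖1-w‖²/Re(1-w)`: `dtn w z < 0` iff the level of `z` is smaller than the level of `w`, for
`w, z` in the open unit disc; for `‖w‖ < 1` the set `{t | dtn w t = 0}` is the circle `‖t - (1-R)‖ = R`, `2R = ‖1-w‖²/Re(1-w)`. -/
def S_UN2 : Prop := ∀ (ι : Type) [Fintype ι] [LinearOrder ι] [Nonempty ι],
  volume (TS ι) = ∑ j, volume {z : ι → ℂ | z ∈ TS ι ∧ ∀ i, i ≠ j → dtn (z j) (z i) < 0}

/-- UN3 (uses S_NUL).  `CS n` is, up to the null sets `{z | ‖z i‖ = ‖z j‖}`, the disjoint union of the open sets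
`{z ∈ CS n | ∀ i ≠ j, ‖z i‖ < ‖z j‖}`; they all have the same volume, since `Pos3` is invariant under cyclic relabelling (`z ∘ finRotate`;
`cr a b c = cr b c a`; `volume_measurePreserving_piCongrLeft`). -/
def S_UN3 : Prop := ∀ m : ℕ, volume (CS (m + 1)) =
  ((m : ℝ≥0∞) + 1) * volume {z : Fin (m + 1) → ℂ | z ∈ CS (m + 1) ∧ ∀ i, i ≠ 0 → ‖z i‖ < ‖z 0‖}

/-- SP1 (uses S_DC1, S_FUB).  S_DC1 (first part), S_FUB with `G = {w | 0 < cr a w b ∧ dq a b φ w < 0}`, `L = {(w,u) | u ∈ EL _ a b w}`,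
`Q = {(w,u) | u ∈ ER _ a b w}` (open sets), S_DC1 (second part) in the integral (`setLIntegral_congr_fun`). -/
def S_SP1 : Prop := ∀ (ι : Type) [Fintype ι] [LinearOrder ι] (a b : ℂ) (φ : ℝ) (j : ι),
  φ ∈ Ioo 0 Real.pi → a ≠ b →
  volume {z : ι → ℂ | z ∈ ES ι a b φ ∧ ∀ i, i ≠ j → dlt a b (z j) (z i) < 0} =
    ∫⁻ w in {w : ℂ | 0 < cr a w b ∧ dq a b φ w < 0},
      volume (ES {i // i < j} a w (al a w b)) * volume (ES {i // j < i} w b (ps a w b))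

/-- SP2 (uses S_DC2, S_FUB).  As SP1. -/
def S_SP2 : Prop := ∀ (ι : Type) [Fintype ι] [LinearOrder ι] (j : ι),
  volume {z : ι → ℂ | z ∈ TS ι ∧ ∀ i, i ≠ j → dtn (z j) (z i) < 0} =
    ∫⁻ w in Metric.ball (0 : ℂ) 1,
      volume (ES {i // i < j} 1 w (at1 w)) * volume (ES {i // j < i} w 1 (Real.pi - at1 w))

/-- SP3.  `Pos3 z ⟺ Pfr (z 0) (fun i => z i.succ)`, Fubini for the coordinate `0` (`volume_preserving_piFinSuccAbove`). -/
def S_SP3 : Prop := ∀ m : ℕ,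
  volume {z : Fin (m + 1) → ℂ | z ∈ CS (m + 1) ∧ ∀ i, i ≠ 0 → ‖z i‖ < ‖z 0‖} =
    ∫⁻ w in Metric.ball (0 : ℂ) 1, volume {u : Fin m → ℂ | Pfr w u ∧ ∀ i, ‖u i‖ < ‖w‖}

/-- VOL (uses S_SIM, S_UN1, S_SP1, S_PV, S_CRD, S_FN, S_ANA).  Strong induction on `n = card ι`.  `n = 0`: both sides are `1` (`Fm 0 φ = 1` by S_ODE).
`n ≥ 1`: by S_SIM `a = 1`, `b = 0`; S_UN1, S_SP1, the induction hypothesis for both factors (`al, ps ∈ (0,π)` by S_SAM), S_PV, S_CRD, S_ANA. -/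
def S_VOL : Prop := ∀ (ι : Type) [Fintype ι] [LinearOrder ι] (a b : ℂ) (φ : ℝ), φ ∈ Ioo 0 Real.pi → a ≠ b →
  volume (ES ι a b φ) = ENNReal.ofReal (‖a - b‖ ^ (2 * Fintype.card ι) * fm (Fintype.card ι) φ)

/-- TSV (uses S_VOL, S_UN2, S_SP2, S_DTN, S_PU, S_CRD, S_ANU, S_FN).  `n = 0`: both sides are `1`.  `n ≥ 1`: S_UN2, S_SP2, S_VOL (S_DTN: `at1 w ∈ (0,π)`), S_PU, S_CRD,
S_ANU. -/
def S_TSV : Prop := ∀ (ι : Type) [Fintype ι] [LinearOrder ι],
  volume (TS ι) = ENNReal.ofReal (Fm (Fintype.card ι) Real.pi).re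

/-- CSV (uses S_TSV, S_UN3, S_SP3, S_SIM, S_BI). -/
def S_CSV : Prop := ∀ m : ℕ, volume (CS (m + 1)) = ENNReal.ofReal (Real.pi * (Fm m Real.pi).re)

/-- QN (uses S_PGA, S_PGB, S_CNJ, S_NUL).  The measure in `qn` is `π^(-n)` times the restriction of `volume` to `(closedBall 0 1)^n`
(`Measure.pi` of scaled, restricted measures).  Up to null sets (`‖x i‖ = 1` for some `i`; `cr (x i) (x j) (x k) = 0` for some `i < j < k`: S_NUL for
`x i = x j` and for `x i ≠ x j ∧ cr … = 0`, a line in the coordinate `k`) the set of `x` in the closed disc with `IsConvexPolygon x` is the disjoint union of `CS n` and its image under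
conjugation (S_CNJ; S_PGA for `x` or its conjugate; S_PGB); the image has the same volume (conjugation is measure preserving). -/
def S_QN : Prop := ∀ (n : ℕ) [NeZero n], 3 ≤ n → qn n = 2 * (volume (CS n)).toReal / Real.pi ^ n

/-- FIN: the final assembly, S_FINAL from S_CSV, S_QN, S_FN (`yk n z = coeff (n-1) (S'(z)/S(z))`). -/
def S_FIN : Prop := S_CSV → S_QN → S_FN → S_ODE → S_FINAL

end Pool.Agent.Helper98.DISC
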