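import Pool.Agent.Helper98.DISC.Defs

/-!
# Project DISC (MP_105b7b_pr), module E: the structure of the formula, `q_n ∈ ℚ[1/π²]`

Every `def S_XXX : Prop` is a packet; complete proofs in the docstrings.
-/

open MeasureTheory Set Filter Topology

noncomputable section

namespace Pool.Agent.Helper98.DISC

/-- `f` has a rational partial fraction expansion with poles of order `≤ k` at the integers of absolute value `≤ K` -/
def PFr (K k : ℕ) (f : ℂ → ℂ) : Prop := ∃ a : ℤ → ℕ → ℚ, ∀ z : ℂ, (K : ℝ) < ‖z‖ →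
  f z = ∑ m ∈ Finset.Icc (-(K : ℤ)) K, ∑ l ∈ Finset.range k, (a m l : ℂ) / (z - m) ^ (l + 1)

/-- PFM.  Closed under sums, rational multiples, products.  Product: by bilinearity `(z-m)^(-a) (z-m')^(-b)`, `1 ≤ a ≤ j`, `1 ≤ b ≤ k`.  For `m = m'`
clear (order `a + b ≤ j + k`); for `m ≠ m'` induction on `a + b` with `1/((z-m)(z-m')) = (m-m')⁻¹ (1/(z-m) - 1/(z-m'))`.
`(z + c)⁻¹` is in `PFr K 1` for an integer `|c| ≤ K`.  (Work with the smaller class of finite sums first, if convenient.) -/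
def S_PFM : Prop := (∀ (K j k : ℕ) (f g : ℂ → ℂ), PFr K j f → PFr K k g → PFr K (max j k) (fun z => f z + g z)) ∧
  (∀ (K k : ℕ) (q : ℚ) (f : ℂ → ℂ), PFr K k f → PFr K k (fun z => (q : ℂ) * f z)) ∧
  (∀ (K j k : ℕ) (f g : ℂ → ℂ), PFr K j f → PFr K k g → PFr K (j + k) (fun z => f z * g z)) ∧
  (∀ (K : ℕ) (c : ℤ), |c| ≤ K → PFr K 1 (fun z => (z + c)⁻¹)) ∧
  ∀ (K j k : ℕ) (f : ℂ → ℂ), j ≤ k → PFr K j f → PFr K k f

/-- PFY (uses S_PFM).  `s_j ∈ PFr K j` for `1 ≤ j ≤ K + 1`: the contents of a partition of `j` are of absolute value `≤ j - 1`, the product over the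
`j` boxes (`∏ i, ∏ j ∈ range (lam i)`, total number of factors `∑ lam i = j ≥ 1`), `dl lam` is rational.  `y S = θS` gives
`y_k = k s_k - Σ_(1 ≤ j < k) y_j s_(k-j)` (`s_0 = 1`, `y_0 = 0`): induction on `k` with `K = n - 1` fixed. -/
def S_PFY : Prop := ∀ n : ℕ, 1 ≤ n → PFr (n - 1) n (yk n)

/-- PFI.  `l = 0`: Cauchy's formula (`circleIntegral` of `(z-m)⁻¹ e^(2πiz)`, `e^(2πim) = 1`).  `l ≥ 1`: the derivative of
`(z-m)^(-l) e^(2πiz)` integrates to `0`: `∮ (z-m)^(-l-1) e = (2πi/l) ∮ (z-m)^(-l) e`. -/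
def S_PFI : Prop := ∀ (n : ℕ) (m : ℤ) (l : ℕ), |m| < n →
  (∮ z in C(0, n), Complex.exp (2 * Real.pi * Complex.I * z) / (z - m) ^ (l + 1)) =
    (2 * Real.pi * Complex.I) ^ (l + 1) / (l.factorial : ℂ)

/-- the second statement: `q_n` is a polynomial in `1/π²` with rational coefficients, of degree at most `(n-1)/2` -/
def S_RAT : Prop := ∀ (n : ℕ) [NeZero n], 3 ≤ n → ∃ P : Polynomial ℚ, P.natDegree ≤ (n - 1) / 2 ∧
  qn n = Polynomial.aeval (1 / Real.pi ^ 2 : ℝ) P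

/-- RATF (uses S_PFY, S_PFI).  `(qn n : ℂ) = -2 (i/2π)^n Σ_(m,l) a_(m,l) (2πi)^(l+1)/l!`; with `A_l = Σ_m a_(m,l)` and `l = n - 1 - s` this is
`-2 Σ_(s<n) A_(n-1-s)/(n-1-s)! · i^(2n-s) (2π)^(-s)`; the real part only contains the even `s = 2j`:
`P = Σ_(j ≤ (n-1)/2) (-2 A_(n-1-2j)/(n-1-2j)! (-1)^(n-j) 4^(-j)) X^j`. -/
def S_RATF : Prop := S_PFY → S_PFI → S_FINAL → S_RAT

end Pool.Agent.Helper98.DISC
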