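import Pool.Agent.Helper98.DISC.GoalsD

open MeasureTheory Set Filter Topology
open scoped ENNReal

noncomputable section

namespace Pool.Agent.Helper98.DISC

lemma fm_nonneg (hFN : S_FN) (m : ℕ) (φ : ℝ) (hφ : φ ∈ Ioo 0 Real.pi) : 0 ≤ fm m φ := by
  unfold fm
  have h1 := (hFN.1 m φ hφ).2
  have h2 : 0 < Real.sin φ := Real.sin_pos_of_pos_of_lt_pi hφ.1 hφ.2
  positivity

lemma fm_zero (hO : S_ODE) (φ : ℝ) : fm 0 φ = 1 := by
  unfold fm
  rw [hO.1 φ]
  simp

lemma vol_isEmpty (ι : Type) [Fintype ι] [IsEmpty ι] (A : Set (ι → ℂ)) (hA : A.Nonempty) : volume A = 1 := by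
  have : A = univ := by
    obtain ⟨x, hx⟩ := hA
    ext y
    have : y = x := Subsingleton.elim _ _
    simp [this, hx]
  rw [this]
  simp [MeasureTheory.volume_pi]

lemma meas_G (φ : ℝ) : MeasurableSet {w : ℂ | 0 < cr 1 w 0 ∧ dq 1 0 φ w < 0} := by
  apply IsOpen.measurableSet
  have h1 : Continuous (fun w : ℂ => cr 1 w 0) := by unfold cr; fun_prop
  have h2 : Continuous (fun w : ℂ => dq 1 0 φ w) := by unfold dq; fun_prop
  exact (isOpen_lt continuous_const h1).inter (isOpen_lt h2 continuous_const)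

theorem vol (hSAM : S_SAM) (hSim : S_SIM) (hU : S_UN1) (hS : S_SP1) (hPV : S_PV) (hC : S_CRD) (hFN : S_FN)
    (hO : S_ODE) (hA : S_ANA) : S_VOL := by
  have key : ∀ (n : ℕ) (ι : Type) [Fintype ι] [LinearOrder ι], Fintype.card ι = n → ∀ (a b : ℂ) (φ : ℝ), φ ∈ Ioo 0 Real.pi → a ≠ b →
      volume (ES ι a b φ) = ENNReal.ofReal (‖a - b‖ ^ (2 * Fintype.card ι) * fm (Fintype.card ι) φ) := by
    intro n
    induction n using Nat.strong_induction_on with
    | _ n ih =>
    intro ι _ _ hn a b φ hφ hab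
    rw [hSim.1 ι a b φ hab, ENNReal.ofReal_mul (by positivity)]
    congr 1
    rcases Nat.eq_zero_or_pos n with h0 | hpos
    · have hE : IsEmpty ι := Fintype.card_eq_zero_iff.mp (hn.trans h0)
      rw [hn, h0, fm_zero hO, ENNReal.ofReal_one]
      apply vol_isEmpty
      refine ⟨fun i => 0, ⟨fun i => (hE.false i).elim, fun i => (hE.false i).elim, fun i => (hE.false i).elim, fun i => (hE.false i).elim⟩, fun i => (hE.false i).elim⟩
    · have hne : Nonempty ι := Fintype.card_pos_iff.mp (hn ▸ hpos)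
      rw [hU ι 1 0 φ hφ one_ne_zero]
      let g : ℕ → ℕ → ℝ≥0∞ := fun p q => ∫⁻ α in Ioo (0 : ℝ) φ, ∫⁻ ψ in Ioo (0 : ℝ) (φ - α),
            ENNReal.ofReal ((Real.sin α / Real.sin (α + ψ)) ^ (2 * p) * fm p α) *
            ENNReal.ofReal ((Real.sin ψ / Real.sin (α + ψ)) ^ (2 * q) * fm q ψ) *
            ENNReal.ofReal (Real.sin α * Real.sin ψ / Real.sin (α + ψ) ^ 3)
      have hj : ∀ j : ι, volume {z : ι → ℂ | z ∈ ES ι 1 0 φ ∧ ∀ i, i ≠ j → dlt 1 0 (z j) (z i) < 0} =
          g (Fintype.card {i // i < j}) (Fintype.card {i // j < i}) := by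
        intro j
        rw [hS ι 1 0 φ j hφ one_ne_zero]
        show _ = ∫⁻ α in Ioo (0 : ℝ) φ, ∫⁻ ψ in Ioo (0 : ℝ) (φ - α), _
        rw [← hPV φ hφ _ _ (fm (Fintype.card {i // i < j})) (fm (Fintype.card {i // j < i}))
          (hFN.2.2.1 _) (hFN.2.2.1 _)]
        apply setLIntegral_congr_fun
        · exact meas_G φ
        · intro w hw
          obtain ⟨hs1, hs2, hs3⟩ := (hSAM 1 0 w hw.1).1
          have hw1 : (1 : ℂ) ≠ w := by
            rintro rfl
            have := hw.1
            simp [cr] at this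
          have hw0 : w ≠ 0 := by
            rintro rfl
            have := hw.1
            simp [cr] at this
          have c1 : Fintype.card {i // i < j} < n := by
            rw [← hn]
            exact Fintype.card_subtype_lt (x := j) (lt_irrefl j)
          have c2 : Fintype.card {i // j < i} < n := by
            rw [← hn]
            exact Fintype.card_subtype_lt (x := j) (lt_irrefl j)
          have e1 := ih _ c1 {i // i < j} rfl 1 w (al 1 w 0) ⟨hs1, by linarith⟩ hw1
          have e2 := ih _ c2 {i // j < i} rfl w 0 (ps 1 w 0) ⟨hs2, by linarith⟩ hw0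
          simp only [e1, e2]
      rw [Finset.sum_congr rfl (fun j _ => hj j)]
      have hn1 : 1 ≤ Fintype.card ι := by omega
      rw [hC ι g]
      exact hA (Fintype.card ι) hn1 φ hφ
  intro ι _ _ a b φ hφ hab
  exact key _ ι rfl a b φ hφ hab

end Pool.Agent.Helper98.DISC
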